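import Pool.Agent.Helper57_K9.Stmts
import Pool.Agent.Helper71_KF.Sqa

/-!
# Squad K9, row TRB: traces of `U V P`
-/

open scoped BigOperators

noncomputable section

namespace Pool.Agent.PP.K9.H82

open Pool.Agent.Helper51_AWC Pool.Agent.Helper79_WRA Pool.Agent.PP Pool.Agent.PP.KF

attribute [local instance] Ideal.Quotient.field

variable {M : Ideal (integralClosure ℤ ℂ)} [hM : M.IsMaximal] {n : Type} [Fintype n]
  [DecidableEq n]

theorem nat_ne {ℓ : ℕ} [hℓ : Fact ℓ.Prime] (h : (ℓ : integralClosure ℤ ℂ) ∈ M) {m : ℕ}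
    (hm : ¬ ℓ ∣ m) : ((m : ℕ) : FF M) ≠ 0 := by
  intro h0
  have h1 : ((ℓ : ℕ) : FF M) = 0 := by
    have : (Ideal.Quotient.mk M (ℓ : integralClosure ℤ ℂ)) = 0 :=
      Ideal.Quotient.eq_zero_iff_mem.2 h
    rwa [map_natCast] at this
  have h2 : Nat.Coprime ℓ m := (Nat.Prime.coprime_iff_not_dvd hℓ.out).2 hm
  obtain ⟨x, y, hxy⟩ := Nat.isCoprime_iff_coprime.2 h2
  have h3 : ((x * ℓ + y * m : ℤ) : FF M) = ((1 : ℤ) : FF M) := by rw [hxy]
  push_cast at h3
  rw [h1, h0, mul_zero, mul_zero, add_zero] at h3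
  exact zero_ne_one h3

theorem e_mul {A B : Matrix n n ℂ} (hA : ∀ i j, A i j ∈ RM M) (hB : ∀ i j, B i j ∈ RM M)
    (i j : n) : (A * B) i j ∈ RM M := by
  rw [Matrix.mul_apply]
  exact Subring.sum_mem _ fun k _ => (RM M).mul_mem (hA i k) (hB k j)

theorem e_pow {A : Matrix n n ℂ} (hA : ∀ i j, A i j ∈ RM M) (k : ℕ) :
    ∀ i j, (A ^ k) i j ∈ RM M := by
  induction k with
  | zero =>
    intro i j
    rw [pow_zero, Matrix.one_apply]
    split_ifs
    · exact (RM M).one_mem
    · exact (RM M).zero_mem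
  | succ k ih =>
    intro i j
    rw [pow_succ]
    exact e_mul ih hA i j

theorem e_smul {A : Matrix n n ℂ} (hA : ∀ i j, A i j ∈ RM M) {c : ℂ} (hc : c ∈ RM M) (i j : n) :
    (c • A) i j ∈ RM M := by
  rw [Matrix.smul_apply, smul_eq_mul]
  exact (RM M).mul_mem hc (hA i j)

theorem e_sum {A : ℕ → Matrix n n ℂ} (hA : ∀ k i j, A k i j ∈ RM M) (m : ℕ) (i j : n) :
    (∑ k ∈ Finset.range m, A k) i j ∈ RM M := by
  rw [Matrix.sum_apply]
  exact Subring.sum_mem _ fun k _ => hA k i j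

/-- row TRB -/
theorem trb (tra : TraStmt) : TrbStmt := by
  intro ℓ _ M _ hℓ n _ _ P U V a m ha hm hP hU hV hPP hUa hVm hUP hVP hUV hyp
  have hm0 : m ≠ 0 := fun h => hm (h ▸ dvd_zero ℓ)
  have hmC : (m : ℂ) ≠ 0 := Nat.cast_ne_zero.2 hm0
  have hmR : (m : ℂ) ∈ RM M ∧ rr M (m : ℂ) = (m : FF M) := rr_nat m
  have hinv : (m : ℂ)⁻¹ ∈ RM M := (inv_RM hmR.1 (by rw [hmR.2]; exact nat_ne hℓ hm)).1
  have hζ := Complex.isPrimitiveRoot_exp m hm0
  set ζ : ℂ := Complex.exp (2 * Real.pi * Complex.I / m) with hζd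
  have hζR : ζ ∈ RM M := RM_of_int (hζ.isIntegral (Nat.pos_of_ne_zero hm0))
  have hζ0 : ζ ≠ 0 := hζ.ne_zero hm0
  set W : ℕ → Matrix n n ℂ := fun i => ζ ^ i • V with hW
  set T : ℕ → Matrix n n ℂ := fun i => (m : ℂ)⁻¹ • ∑ k ∈ Finset.range m, W i ^ k with hT
  have hWm : ∀ i, W i ^ m = 1 := fun i => by
    simp only [hW]
    rw [smul_pow, hVm, ← pow_mul, mul_comm, pow_mul, hζ.pow_eq_one, one_pow, one_smul]
  have hWT : ∀ i, W i * T i = T i := fun i => by
    have h1 := mul_geom_sum (W i) m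
    rw [hWm, sub_self, sub_mul, one_mul, sub_eq_zero] at h1
    simp only [hT]
    rw [Matrix.mul_smul, h1]
  have hWkT : ∀ i k, W i ^ k * T i = T i := by
    intro i k
    induction k with
    | zero => rw [pow_zero, one_mul]
    | succ k ih => rw [pow_succ, mul_assoc, hWT, ih]
  have hTT : ∀ i, T i * T i = T i := fun i => by
    have h1 : (∑ k ∈ Finset.range m, W i ^ k) * T i = (m : ℂ) • T i := by
      rw [Finset.sum_mul, Finset.sum_congr rfl fun k _ => hWkT i k, Finset.sum_const,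
        Finset.card_range, ← Nat.cast_smul_eq_nsmul ℂ]
    have h2 : T i * T i = (m : ℂ)⁻¹ • ((∑ k ∈ Finset.range m, W i ^ k) * T i) := by
      conv_lhs => lhs; simp only [hT]
      rw [Matrix.smul_mul]
    rw [h2, h1, smul_smul, inv_mul_cancel₀ hmC, one_smul]
  -- commutation
  have hcomm : ∀ (X : Matrix n n ℂ), V * X = X * V → ∀ i, T i * X = X * T i := by
    intro X hX i
    have h1 : Commute (W i) X := by
      simp only [hW]
      exact (Commute.smul_left (show Commute V X from hX) _)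
    have h2 : Commute (∑ k ∈ Finset.range m, W i ^ k) X :=
      Commute.sum_left _ _ _ fun k _ => h1.pow_left k
    simp only [hT]
    exact (h2.smul_left ((m : ℂ)⁻¹)).eq
  have hTP : ∀ i, T i * P = P * T i := hcomm P hVP
  have hTU : ∀ i, T i * U = U * T i := hcomm U hUV.symm
  -- the matrices `T i * P`
  have hQR : ∀ i, ∀ r s, (T i * P) r s ∈ RM M := by
    intro i
    refine e_mul (fun r s => ?_) hP
    refine e_smul (e_sum (fun k => e_pow (e_smul hV ((RM M).pow_mem hζR i)) k) m) hinv r s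
  have hzero : ∀ i, (U * (T i * P)).trace = 0 := by
    intro i
    have hQU : U * (T i * P) = T i * P * U := by
      rw [← mul_assoc, ← hTU, mul_assoc, mul_assoc, hUP]
    have hPQ : P * (T i * P) = T i * P := by
      rw [hTP, ← mul_assoc, hPP]
    refine tra ℓ M hℓ n (T i * P) U a ha (hQR i) hU ?_ hUa hQU ?_
    · rw [mul_assoc, hPQ, ← mul_assoc, hTT]
    · intro v hv hUv
      have e1 : (P.map (rr M)) * ((T i * P).map (rr M)) = (T i * P).map (rr M) := by
        rw [← H71.map_rr_mul hP (hQR i), hPQ]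
      have e2 : Commute (U.map (rr M)) ((T i * P).map (rr M)) := by
        show _ * _ = _ * _
        rw [← H71.map_rr_mul hU (hQR i), ← H71.map_rr_mul (hQR i) hU, hQU]
      have e3 : (T i * P).map (rr M) * (T i * P).map (rr M) = (T i * P).map (rr M) := by
        rw [← H71.map_rr_mul (hQR i) (hQR i), mul_assoc, hPQ, ← mul_assoc, hTT]
      have hPv : (P.map (rr M)).mulVec v = v := by
        conv_lhs => rw [← hv]
        rw [Matrix.mulVec_mulVec, e1, hv]
      obtain ⟨w, _, hw2⟩ := hyp v hPv hUv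
      refine ⟨((T i * P).map (rr M)).mulVec w, by rw [Matrix.mulVec_mulVec, e3], ?_⟩
      have h5 : ∀ j, ((U.map (rr M)) ^ j).mulVec (((T i * P).map (rr M)).mulVec w) =
          ((T i * P).map (rr M)).mulVec (((U.map (rr M)) ^ j).mulVec w) := by
        intro j
        rw [Matrix.mulVec_mulVec, Matrix.mulVec_mulVec, (e2.pow_left j).eq]
      rw [Finset.sum_congr rfl fun j _ => h5 j, ← Matrix.mulVec_sum, ← hw2, hv]
  -- the sum of the `T i`
  have hsum : ∑ i ∈ Finset.range m, T i = 1 := by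
    have h1 : ∀ i, T i = (m : ℂ)⁻¹ • ∑ k ∈ Finset.range m, (ζ ^ k) ^ i • V ^ k := fun i => by
      simp only [hT, hW]
      congr 1
      refine Finset.sum_congr rfl fun k _ => ?_
      rw [smul_pow, ← pow_mul, ← pow_mul, mul_comm]
    rw [Finset.sum_congr rfl fun i _ => h1 i, ← Finset.smul_sum, Finset.sum_comm]
    have h2 : ∀ k ∈ Finset.range m, ∑ i ∈ Finset.range m, (ζ ^ k) ^ i • V ^ k =
        if k = 0 then (m : ℂ) • (1 : Matrix n n ℂ) else 0 := by
      intro k hk
      rw [← Finset.sum_smul]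
      split_ifs with h
      · subst h
        simp
      · have h3 : ζ ^ k ≠ 1 := by
          intro h4
          have := hζ.pow_eq_one_iff_dvd k |>.1 h4
          exact absurd (Nat.le_of_dvd (Nat.pos_of_ne_zero h) this)
            (not_le.2 (Finset.mem_range.1 hk))
        rw [geom_sum_eq h3, ← pow_mul, mul_comm, pow_mul, hζ.pow_eq_one, one_pow, sub_self,
          zero_div, zero_smul]
    rw [Finset.sum_congr rfl h2, Finset.sum_ite_eq' (Finset.range m) 0,
      if_pos (Finset.mem_range.2 (Nat.pos_of_ne_zero hm0)), smul_smul, inv_mul_cancel₀ hmC,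
      one_smul]
  have hfin : U * V * P = ∑ i ∈ Finset.range m, (ζ ^ i)⁻¹ • (U * (T i * P)) := by
    have h1 : ∀ i, U * V * (T i * P) = (ζ ^ i)⁻¹ • (U * (T i * P)) := by
      intro i
      have h2 : V * T i = (ζ ^ i)⁻¹ • T i := by
        conv_rhs => rw [← hWT i]
        simp only [hW]
        rw [Matrix.smul_mul, smul_smul, inv_mul_cancel₀ (pow_ne_zero i hζ0), one_smul]
      rw [mul_assoc U V, ← mul_assoc V, h2, Matrix.smul_mul, Matrix.mul_smul]
    rw [← Finset.sum_congr rfl fun i _ => h1 i, ← Finset.mul_sum, ← Finset.sum_mul, hsum,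
      one_mul]
  rw [hfin, Matrix.trace_sum]
  refine Finset.sum_eq_zero fun i _ => ?_
  rw [Matrix.trace_smul, hzero i, smul_zero]

end Pool.Agent.PP.K9.H82
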