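import Pool.Agent.Helper57_K9.Stmts
import Pool.Agent.Helper92_KF.Sqb
import Pool.Agent.Helper25_KF.Idm
import Pool.Agent.Helper77_KF.Trc

/-!
# Squad K9, row WBO: weak block orthogonality
-/

open scoped BigOperators

set_option linter.unusedSectionVars false

noncomputable section

namespace Pool.Agent.PP.K9.H82W

open Pool.Agent.Helper51_AWC Pool.Agent.Helper79_WRA Pool.Agent.PP Pool.Agent.PP.KF
open Pool.Agent.PP.KF.H71 Pool.Agent.PP.KF.H92

attribute [local instance] Ideal.Quotient.field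

/-- the `ℓ`-part and the `ℓ'`-part of an element which is not regular -/
theorem parts {ℓ : ℕ} [hℓ : Fact ℓ.Prime] {G : Type} [Group G] [Finite G] {g : G}
    (hg : ¬ Reg ℓ g) : ∃ (y t : G) (a m : ℕ), 0 < a ∧ orderOf y = ℓ ^ a ∧ ¬ ℓ ∣ m ∧ t ^ m = 1 ∧
      y * t = g ∧ t * y = g ∧ y ∈ Subgroup.zpowers g ∧ t ∈ Subgroup.zpowers g := by
  obtain ⟨a, m, hm, hN⟩ := Nat.exists_eq_pow_mul_and_not_dvd (orderOf_pos g).ne' ℓ hℓ.out.ne_one
  have hco : Nat.Coprime (ℓ ^ a) m :=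
    Nat.Coprime.pow_left a ((Nat.Prime.coprime_iff_not_dvd hℓ.out).2 hm)
  obtain ⟨u, v, huv⟩ := Nat.isCoprime_iff_coprime.2 hco
  have hgN : g ^ ((ℓ ^ a * m : ℕ) : ℤ) = 1 := by
    rw [zpow_natCast, ← hN, pow_orderOf_eq_one]
  have hy : (g ^ (v * m)) ^ ℓ ^ a = 1 := by
    rw [← zpow_natCast, ← zpow_mul]
    have : v * (m : ℤ) * ((ℓ ^ a : ℕ) : ℤ) = ((ℓ ^ a * m : ℕ) : ℤ) * v := by push_cast; ring
    rw [this, zpow_mul, hgN, one_zpow]
  have ht : (g ^ (u * (ℓ ^ a : ℕ))) ^ m = 1 := by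
    rw [← zpow_natCast, ← zpow_mul]
    have : u * ((ℓ ^ a : ℕ) : ℤ) * (m : ℤ) = ((ℓ ^ a * m : ℕ) : ℤ) * u := by push_cast; ring
    rw [this, zpow_mul, hgN, one_zpow]
  have h1 : g ^ (v * m) * g ^ (u * (ℓ ^ a : ℕ)) = g := by
    rw [← zpow_add]
    have : v * (m : ℤ) + u * ((ℓ ^ a : ℕ) : ℤ) = 1 := by
      rw [← huv]; push_cast; ring
    rw [this, zpow_one]
  have h2 : g ^ (u * (ℓ ^ a : ℕ)) * g ^ (v * m) = g := by
    rw [← zpow_add, add_comm, zpow_add]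
    exact h1
  have hy1 : g ^ (v * m) ≠ 1 := by
    intro h
    rw [h, one_mul] at h1
    rw [h1] at ht
    apply hg
    unfold Reg
    refine Nat.Coprime.coprime_dvd_left (orderOf_dvd_of_pow_eq_one ht) ?_
    exact ((Nat.Prime.coprime_iff_not_dvd hℓ.out).2 hm).symm
  obtain ⟨b, _, hb⟩ := (Nat.dvd_prime_pow hℓ.out).1 (orderOf_dvd_of_pow_eq_one hy)
  refine ⟨g ^ (v * m), g ^ (u * (ℓ ^ a : ℕ)), b, m, ?_, hb, hm, ht, h1, h2,
    ⟨_, rfl⟩, ⟨_, rfl⟩⟩
  rcases Nat.eq_zero_or_pos b with h | h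
  · rw [h, pow_zero, orderOf_eq_one_iff] at hb
    exact absurd hb hy1
  · exact h

section free

variable {F : Type} [Field F] {G : Type} [Group G] [Fintype G] [DecidableEq G]

theorem dl_mul_dl (a b : G) : mulF (dl F a) (dl F b) = dl F (a * b) := by
  funext g
  rw [H75.mulF_dl_left]
  unfold dl
  by_cases h : g = a * b
  · rw [if_pos h, if_pos (by rw [h]; group)]
  · rw [if_neg h, if_neg]
    intro h'
    exact h (by rw [← h']; group)

theorem mulF_dl_one (a : G → F) : mulF a (dl F (1 : G)) = a := by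
  rw [← H20.mulF_comm_of_cl dl_cl, dl_one_mulF]

theorem Km_dl_pow (z w : G) (k : ℕ) :
    (Km (dl F z) (dl F w)) ^ k = Km (dl F (z ^ k)) (dl F (w ^ k)) := by
  induction k with
  | zero => rw [pow_zero, pow_zero, pow_zero, Km_one]
  | succ k ih => rw [pow_succ, ih, Km_mul, dl_mul_dl, dl_mul_dl, ← pow_succ, ← pow_succ']

/-- a function invariant under the left multiplication by `y` is a sum over the orbits -/
theorem free_left (y : G) {v : G → F} (hv : ∀ x, v (y⁻¹ * x) = v x) :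
    ∃ v0 : G → F, ∀ x, v x = ∑ i ∈ Finset.range (orderOf y), v0 ((y ^ i)⁻¹ * x) := by
  classical
  let R : G → G := fun x => (((x⁻¹ : G) : G ⧸ Subgroup.zpowers y).out)⁻¹
  have hR1 : ∀ x, ∃ h ∈ Subgroup.zpowers y, R x = h * x := by
    intro x
    obtain ⟨h, hh⟩ := QuotientGroup.mk_out_eq_mul (Subgroup.zpowers y) x⁻¹
    refine ⟨(h : G)⁻¹, (Subgroup.zpowers y).inv_mem h.2, ?_⟩
    simp only [R]
    rw [hh]
    group
  have hR2 : ∀ x, ∀ h ∈ Subgroup.zpowers y, R (h * x) = R x := by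
    intro x h hh
    simp only [R]
    congr 2
    rw [QuotientGroup.eq]
    have : ((h * x)⁻¹)⁻¹ * x⁻¹ = h := by group
    rw [this]
    exact hh
  have hinv : ∀ i : ℕ, ∀ x, v ((y ^ i)⁻¹ * x) = v x := by
    intro i
    induction i with
    | zero => intro x; simp
    | succ i ih =>
      intro x
      have : (y ^ (i + 1))⁻¹ * x = (y ^ i)⁻¹ * (y⁻¹ * x) := by
        rw [pow_succ']
        group
      rw [this, ih, hv]
  refine ⟨fun x => if R x = x then v x else 0, fun x => ?_⟩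
  obtain ⟨h, hh, hRx⟩ := hR1 x
  obtain ⟨i, hi, hyi⟩ : ∃ i < orderOf y, y ^ i = h⁻¹ := by
    have h1 : h⁻¹ ∈ Subgroup.zpowers y := (Subgroup.zpowers y).inv_mem hh
    rw [mem_zpowers_iff_mem_range_orderOf, Finset.mem_image] at h1
    obtain ⟨i, hi, hi2⟩ := h1
    exact ⟨i, Finset.mem_range.1 hi, hi2⟩
  rw [Finset.sum_eq_single i]
  · have h1 : (y ^ i)⁻¹ * x = R x := by rw [hyi, inv_inv, hRx]
    have h2 : R ((y ^ i)⁻¹ * x) = (y ^ i)⁻¹ * x := by
      rw [hR2 x _ ((Subgroup.zpowers y).inv_mem ⟨i, by simp⟩), h1]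
    show v x = if R ((y ^ i)⁻¹ * x) = (y ^ i)⁻¹ * x then v ((y ^ i)⁻¹ * x) else 0
    rw [if_pos h2, hinv]
  · intro j hj hji
    have h1 : R ((y ^ j)⁻¹ * x) = R x :=
      hR2 x _ ((Subgroup.zpowers y).inv_mem ⟨j, by simp⟩)
    show (if R ((y ^ j)⁻¹ * x) = (y ^ j)⁻¹ * x then v ((y ^ j)⁻¹ * x) else 0) = 0
    rw [if_neg]
    intro h2
    rw [h1, hRx] at h2
    have h3 : h = (y ^ j)⁻¹ := mul_right_cancel h2
    have h4 : y ^ i = y ^ j := by rw [hyi, h3, inv_inv]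
    exact hji (pow_injOn_Iio_orderOf (Finset.mem_range.1 hj) hi h4.symm)
  · intro h1
    exact absurd (Finset.mem_range.2 hi) h1

end free

theorem chv_dl {G : Type} [Group G] [Finite G] (z : G) (χ : G → ℂ) : chv (dl ℂ z) χ = χ z := by
  unfold chv
  rw [finsum_eq_single _ z]
  · rw [dl, if_pos rfl, one_mul]
  · intro t ht
    rw [dl, if_neg ht, zero_mul]

/-- row WBO -/
theorem wbo (trb : TrbStmt) : WboStmt := by
  intro ℓ _ M hM hℓ G _ _ e he s g hs hg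
  classical
  have := Fintype.ofFinite G
  obtain ⟨k1, k2, k3⟩ := H25.idm M G e he
  generalize eh M e = E at k1 k2 k3
  obtain ⟨y, t, a, m, ha, hy, hm, htm, hyt, hty, -, -⟩ := parts hg
  -- the sum is a trace
  have hL : ∑ᶠ χ ∈ IrrE M e, χ s⁻¹ * χ g = (Km (mulF E (dl ℂ g)) (dl ℂ s⁻¹)).trace := by
    calc ∑ᶠ χ ∈ IrrE M e, χ s⁻¹ * χ g
        = ∑ᶠ χ ∈ IrrE M e, chv (mulF E (dl ℂ g)) χ * chv (dl ℂ s⁻¹) χ := by
          refine finsum_mem_congr rfl fun χ hχ => ?_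
          rw [(k3 χ hχ.1 _).1 hχ.2, chv_dl, chv_dl, mul_comm]
      _ = ∑ᶠ χ ∈ Irr G, chv (mulF E (dl ℂ g)) χ * chv (dl ℂ s⁻¹) χ := by
          apply finsum_mem_inter_support_eq
          ext χ
          constructor
          · rintro ⟨h3, h4⟩
            exact ⟨h3.1, h4⟩
          · rintro ⟨h3, h4⟩
            refine ⟨⟨h3, ?_⟩, h4⟩
            by_contra h5
            apply h4
            change chv (mulF E (dl ℂ g)) χ * chv (dl ℂ s⁻¹) χ = 0
            rw [(k3 χ h3 _).2 h5, zero_mul]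
      _ = (Km (mulF E (dl ℂ g)) (dl ℂ s⁻¹)).trace := by
          rw [KF.trc G _ _, finsum_eq_sum_of_fintype, Matrix.trace]
          refine Finset.sum_congr rfl fun x _ => ?_
          rw [finsum_eq_sum_of_fintype, Matrix.diag_apply, Km_apply]
  rw [hL]
  set P : Matrix G G ℂ := Km E (dl ℂ 1) with hP
  set U : Matrix G G ℂ := Km (dl ℂ y) (dl ℂ 1) with hU
  set V : Matrix G G ℂ := Km (dl ℂ t) (dl ℂ s⁻¹) with hV
  have hPR : ∀ i j, P i j ∈ RM M := fun i j => Km_RM (fun g => (k1 g).1) (fun g => (dl_RM 1 g).1) i j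
  have hUR : ∀ i j, U i j ∈ RM M := fun i j =>
    Km_RM (fun g => (dl_RM y g).1) (fun g => (dl_RM 1 g).1) i j
  have hVR : ∀ i j, V i j ∈ RM M := fun i j =>
    Km_RM (fun g => (dl_RM t g).1) (fun g => (dl_RM s⁻¹ g).1) i j
  have hPP : P * P = P := by
    rw [hP, Km_mul, k2.2, dl_one_mulF]
  have hUa : U ^ ℓ ^ a = 1 := by
    rw [hU, Km_dl_pow, one_pow, ← hy, pow_orderOf_eq_one, Km_one]
  have hVm : V ^ (m * orderOf s) = 1 := by
    rw [hV, Km_dl_pow, pow_mul, htm, one_pow, mul_comm m, pow_mul, inv_pow, pow_orderOf_eq_one,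
      inv_one, one_pow, Km_one]
  have hmm : ¬ ℓ ∣ m * orderOf s := by
    intro h
    rcases (Fact.out : ℓ.Prime).dvd_mul.1 h with h | h
    · exact hm h
    · exact (Nat.Prime.coprime_iff_not_dvd Fact.out).1 (Nat.Coprime.symm hs) h
  have hEy : ∀ z : G, mulF (dl ℂ z) E = mulF E (dl ℂ z) := fun z =>
    (H20.mulF_comm_of_cl k2.1 _).symm
  have hUP : U * P = P * U := by
    rw [hU, hP, Km_mul, Km_mul, hEy]
  have hVP : V * P = P * V := by
    rw [hV, hP, Km_mul, Km_mul, hEy, dl_one_mulF, mulF_dl_one]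
  have hUV : U * V = V * U := by
    rw [hU, hV, Km_mul, Km_mul]
    simp only [dl_mul_dl, hyt, hty, one_mul, mul_one]
  have hUVP : U * V * P = Km (mulF E (dl ℂ g)) (dl ℂ s⁻¹) := by
    rw [hU, hV, hP, Km_mul, Km_mul, dl_mul_dl, hyt, hEy, dl_one_mulF, mulF_dl_one]
  rw [← hUVP]
  refine trb ℓ M hℓ G P U V a (m * orderOf s) ha hmm hPR hUR hVR hPP hUa hVm hUP hVP hUV ?_
  intro v hv hUv
  have hdl : ∀ z : G, (fun g => rr M (dl ℂ z g)) = dl (FF M) z := fun z =>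
    funext fun g => (dl_RM z g).2
  have hPm : P.map (rr M) = Km e (dl (FF M) 1) := by
    have hE : (fun g => rr M (E g)) = e := funext fun g => (k1 g).2
    rw [hP, Km_map (fun g => (k1 g).1) (fun g => (dl_RM 1 g).1), hdl, hE]
  have hUm : U.map (rr M) = Km (dl (FF M) y) (dl (FF M) 1) := by
    rw [hU, Km_map (fun g => (dl_RM y g).1) (fun g => (dl_RM 1 g).1), hdl, hdl]
  have hv1 : ∀ x, v (y⁻¹ * x) = v x := by
    intro x
    rw [hUm, Km_mulVec, mulF_dl_one] at hUv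
    have := congrFun hUv x
    rwa [H75.mulF_dl_left] at this
  obtain ⟨v0, hv0⟩ := free_left y hv1
  rw [hy] at hv0
  have hPPm : P.map (rr M) * P.map (rr M) = P.map (rr M) := by
    rw [← map_rr_mul hPR hPR, hPP]
  have hUPm : Commute (U.map (rr M)) (P.map (rr M)) := by
    show _ * _ = _ * _
    rw [← map_rr_mul hPR hUR, ← map_rr_mul hUR hPR, hUP]
  have hsum : v = ∑ i ∈ Finset.range (ℓ ^ a), ((U.map (rr M)) ^ i).mulVec v0 := by
    funext x
    rw [hv0 x, Finset.sum_apply]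
    refine Finset.sum_congr rfl fun i _ => ?_
    rw [hUm, Km_dl_pow, one_pow, Km_mulVec, mulF_dl_one, H75.mulF_dl_left]
  refine ⟨(P.map (rr M)).mulVec v0, by rw [Matrix.mulVec_mulVec, hPPm], ?_⟩
  have h5 : ∀ j, ((U.map (rr M)) ^ j).mulVec ((P.map (rr M)).mulVec v0) =
      (P.map (rr M)).mulVec (((U.map (rr M)) ^ j).mulVec v0) := by
    intro j
    rw [Matrix.mulVec_mulVec, Matrix.mulVec_mulVec, (hUPm.pow_left j).eq]
  rw [Finset.sum_congr rfl fun j _ => h5 j, ← Matrix.mulVec_sum, ← hsum, hv]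

end Pool.Agent.PP.K9.H82W
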